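import Pool.Agent.Lib.MP_146384_al.Q.Quad

set_option autoImplicit false

namespace Pool.Agent.Lib.MP_146384_al

open Module Function Filter

variable {k Λ : Type} [Field k] [Ring Λ] [Algebra k Λ]

theorem exists_rigid_inj [Infinite k] {Y1 Y0 : FM k Λ} {f g : Y1.T →ₗ[Λ] Y0.T} (hf : Injective f)
    (hg : Rigid g) : ∃ u : Y1.T →ₗ[Λ] Y0.T, Injective u ∧ Surjective (orb Y1 Y0 u) := by
  have hs : LinearMap.range (orb Y1 Y0 g) = ⊤ := LinearMap.range_eq_top.2 fun z => by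
    obtain ⟨a, c, h⟩ := hg z
    exact ⟨(a, c), h.symm⟩
  obtain ⟨t, h1, h2, h3⟩ := ((eventually_rank_ge (orb Y1 Y0 g) (orb Y1 Y0 f)).and
    (((inv_injective (G := k)).tendsto_cofinite.eventually
      (eventually_rank_ge (f.restrictScalars k) (g.restrictScalars k))).and
      (eventually_cofinite_ne (0 : k)))).exists
  refine ⟨g + t • f, ?_, ?_⟩
  · have h4 : Injective (f.restrictScalars k + t⁻¹ • g.restrictScalars k) := by
      rw [← LinearMap.ker_eq_bot, ← Submodule.finrank_eq_zero]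
      have a := (f.restrictScalars k + t⁻¹ • g.restrictScalars k).finrank_range_add_finrank_ker
      have b := LinearMap.finrank_range_of_inj (f := f.restrictScalars k) hf
      omega
    refine (injective_iff_map_eq_zero _).2 fun x hx => h4 ?_
    have h5 : g x + t • f x = 0 := hx
    rw [map_zero]
    change f x + t⁻¹ • g x = 0
    rw [eq_neg_of_add_eq_zero_left h5, smul_neg, inv_smul_smul₀ h3, add_neg_cancel]
  · rw [hs, finrank_top] at h1
    rw [map_add, map_smul, ← LinearMap.range_eq_top]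
    exact Submodule.eq_top_of_finrank_eq ((Submodule.finrank_le _).antisymm h1)

theorem count_rigid [Infinite k] {Y1 Y0 : FM k Λ} {f g : Y1.T →ₗ[Λ] Y0.T} (hf : Injective f)
    (hg : Rigid g) (hD : Y1.dim < Y0.dim) : hd Y1 Y0 + hd Y0 Y1 < hd Y0 Y0 + hd Y1 Y1 := by
  obtain ⟨u, hu, hs⟩ := exists_rigid_inj hf hg
  let j : (Y0.T →ₗ[Λ] Y1.T) →ₗ[k] (Y1.T →ₗ[Λ] Y1.T) × (Y0.T →ₗ[Λ] Y0.T) :=
    (pre u Y1).prod (-post Y0 u)
  have hj : Injective j := (injective_iff_map_eq_zero _).2 fun w hw => LinearMap.ext fun x =>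
    hu ((neg_eq_zero.1 (LinearMap.congr_fun (congrArg Prod.snd hw) x)).trans (map_zero u).symm)
  have h1 : LinearMap.range j < LinearMap.ker (orb Y1 Y0 u) := by
    refine lt_of_le_of_ne ?_ fun e => ?_
    · rintro _ ⟨w, rfl⟩
      exact LinearMap.ext fun y => add_neg_cancel (u (w (u y)))
    · obtain ⟨w, hw⟩ := e.ge (show (LinearMap.id, -LinearMap.id) ∈ LinearMap.ker (orb Y1 Y0 u) from
        LinearMap.ext fun y => add_neg_cancel (u y))
      exact absurd (dim_le_of_surj u fun y =>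
        ⟨w y, neg_injective (LinearMap.congr_fun (congrArg Prod.snd hw) y)⟩) (not_le.2 hD)
  have h2 := Submodule.finrank_lt_finrank_of_lt h1
  have h3 := LinearMap.finrank_range_of_inj hj
  have h4 := (orb Y1 Y0 u).finrank_range_add_finrank_ker
  rw [LinearMap.range_eq_top.2 hs, finrank_top, finrank_prod] at h4
  unfold hd
  omega

theorem rigid_red (T : FM k Λ) {P Q : FM k Λ} [Module.Projective Λ P.T] {f : P.T →ₗ[Λ] Q.T}
    (hf : Rigid f) : Rigid (redMap T f) := fun g => by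
  obtain ⟨h, hh⟩ := Module.projective_lifting_property (rej T Q).mkQ (g ∘ₗ (rej T P).mkQ)
    (Submodule.mkQ_surjective _)
  obtain ⟨a, b, rfl⟩ := hf h
  refine ⟨redMap T a, redMap T b, LinearMap.ext fun x => ?_⟩
  obtain ⟨y, rfl⟩ := Submodule.Quotient.mk_surjective _ x
  exact (LinearMap.congr_fun hh y).symm

theorem red_pi (T : FM k Λ) {I : Type} [Fintype I] (X : I → FM k Λ) :
    Nonempty ((red T (FM.pi X)).T ≃ₗ[Λ] ∀ i, (red T (X i)).T) := by
  let e : (FM.pi X).T ≃ₗ[Λ] ∀ i, (X i).T := LinearEquiv.refl _ _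
  refine ⟨LinearEquiv.ofBijective (LinearMap.pi fun i => redMap T (pr e i)) ⟨?_, fun z => ?_⟩⟩
  · rw [injective_iff_map_eq_zero]
    intro x hx
    obtain ⟨y, rfl⟩ := Submodule.Quotient.mk_surjective _ x
    refine (Submodule.Quotient.mk_eq_zero _).2 (mem_rej.2 fun ψ => ?_)
    rw [← LinearMap.id_apply (R := Λ) y, ← sum_inc_pr e, LinearMap.sum_apply, map_sum]
    exact Finset.sum_eq_zero fun i _ =>
      mem_rej.1 ((Submodule.Quotient.mk_eq_zero _).1 (congrFun hx i)) (ψ ∘ₗ inc e i)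
  · choose w hw using fun i => Submodule.Quotient.mk_surjective _ (z i)
    exact ⟨Submodule.Quotient.mk w, funext hw⟩

variable {ι : Type} [Fintype ι]

theorem Cls.exists_red {G : ι → FM k Λ} (hP : ∀ j, Module.Projective Λ (G j).T) {T Y : FM k Λ}
    {a : ι → ℕ} (h : Cls (fun j => Pool.Agent.Lib.MP_146384_al.red T (G j)) Y a) :
    ∃ P : FM k Λ, Module.Projective Λ P.T ∧
      Nonempty (Y.T ≃ₗ[Λ] (Pool.Agent.Lib.MP_146384_al.red T P).T) := by
  classical
  obtain ⟨I, _, c, ⟨e⟩, -⟩ := h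
  obtain ⟨d⟩ := red_pi T fun i => G (c i)
  exact ⟨FM.pi fun i => G (c i),
    Module.Projective.of_equiv' (DFinsupp.linearEquivFunOnFintype (R := Λ)), ⟨e.trans d.symm⟩⟩

theorem count_red [Infinite k] (hBD : BD k Λ) {G : ι → FM k Λ}
    (hP : ∀ j, Module.Projective Λ (G j).T) {T Y1 Y0 : FM k Λ} {a b : ι → ℕ}
    (h1 : Cls (fun j => red T (G j)) Y1 a) (h0 : Cls (fun j => red T (G j)) Y0 b)
    {f : Y1.T →ₗ[Λ] Y0.T} (hf : Injective f) (hD : Y1.dim < Y0.dim) :
    hd Y1 Y0 + hd Y0 Y1 < hd Y0 Y0 + hd Y1 Y1 := by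
  obtain ⟨P1, _, ⟨e1⟩⟩ := h1.exists_red hP
  obtain ⟨P0, _, ⟨e0⟩⟩ := h0.exists_red hP
  obtain ⟨g, hg⟩ := exists_rigid hBD P1 P0
  refine count_rigid hf (g := e0.symm.toLinearMap ∘ₗ redMap T g ∘ₗ e1.toLinearMap) (fun z => ?_) hD
  obtain ⟨u, v, h⟩ := rigid_red T hg (e0.toLinearMap ∘ₗ z ∘ₗ e1.symm.toLinearMap)
  refine ⟨e1.symm.toLinearMap ∘ₗ u ∘ₗ e1.toLinearMap, e0.symm.toLinearMap ∘ₗ v ∘ₗ e0.toLinearMap,
    LinearMap.ext fun x => e0.injective ?_⟩
  simpa using LinearMap.congr_fun h (e1 x)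

theorem qh_red [Infinite k] [FiniteDimensional k Λ] (hBD : BD k Λ) {G : ι → FM k Λ}
    (hP : ∀ j, Module.Projective Λ (G j).T) (T Z : FM k Λ) :
    QH (fun p q => hd (red T (G p)) (red T (G q))) (fun p => (red T (G p)).dim)
      (Tst Z (fun j => red T (G j)) fun j => red T (G j)) := fun v hv => by
  set G' := fun j => red T (G j)
  change (0 < wt (fun p => ((G' p).dim : ℤ)) (fun p => (G' p).dim) v ∧ 0 < frm G' G' v v) ∨
    (wt (fun p => ((G' p).dim : ℤ)) (fun p => (G' p).dim) v = 0 ∧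
      ∀ w, frm G' G' v w = 0 ∧ frm G' G' w v = 0)
  obtain ⟨Y1, h1⟩ := exists_cls G' v.1
  obtain ⟨Y0, h0⟩ := exists_cls G' v.2
  obtain ⟨l, hl0, f, hf⟩ := good_of_mon h1 h0 hv
  have k1 : Cls G' _ (l • v).1 := h1.pow l
  have k0 : Cls G' _ (l • v).2 := h0.pow l
  have hl1 : (0 : ℤ) < l := by exact_mod_cast hl0
  have e1 := wt_dim k1 k0
  rw [map_nsmul, nsmul_eq_mul] at e1
  rcases (dim_le_of_inj f hf.1).lt_or_eq with hlt | heq
  · have e2 := frm_eq k1 k0 k1 k0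
    have e3 := count_red hBD hP k1 k0 hf.1 hlt
    rw [map_nsmul, map_nsmul, AddMonoidHom.nsmul_apply, nsmul_eq_mul, nsmul_eq_mul] at e2
    refine Or.inl ⟨(mul_pos_iff_of_pos_left hl1).1 (by omega), ?_⟩
    exact (mul_pos_iff_of_pos_left hl1).1 ((mul_pos_iff_of_pos_left hl1).1 (by omega))
  · have hs : Surjective f :=
      (LinearMap.injective_iff_surjective_of_finrank_eq_finrank heq
        (f := f.restrictScalars k)).1 hf.1
    let E := LinearEquiv.ofBijective f ⟨hf.1, hs⟩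
    refine Or.inr ⟨(mul_eq_zero_iff_left hl1.ne').1 (by omega), fun w => ?_⟩
    obtain ⟨X1, j1⟩ := exists_cls G' w.1
    obtain ⟨X0, j0⟩ := exists_cls G' w.2
    have e2 := frm_eq k1 k0 j1 j0
    have e3 := frm_eq j1 j0 k1 k0
    rw [map_nsmul, AddMonoidHom.nsmul_apply, nsmul_eq_mul, hd_congr_left E X0,
      hd_congr_left E X1] at e2
    rw [map_nsmul, nsmul_eq_mul, hd_congr X0 E, hd_congr X1 E] at e3
    exact ⟨(mul_eq_zero_iff_left hl1.ne').1 (by omega),
      (mul_eq_zero_iff_left hl1.ne').1 (by omega)⟩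

end Pool.Agent.Lib.MP_146384_al
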