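import Pool.Agent.Lib.MP_146384_al.Q.Cnt

set_option autoImplicit false

namespace Pool.Agent.Lib.MP_146384_al

open Module Function

variable {k Λ : Type} [Field k] [Ring Λ] [Algebra k Λ]

theorem ks_fin (G : FM k Λ) : ∃ (m : ℕ) (X : Fin m → FM k Λ),
    (∀ i, ks_Ind (X i)) ∧ Nonempty (G.T ≃ₗ[Λ] ∀ i, (X i).T) := by
  obtain ⟨ι, _, X, hX, ⟨e⟩⟩ := ks_dec G
  exact ⟨_, fun i => X ((Fintype.equivFin ι).symm i), fun _ => hX _,
    ⟨e.trans (LinearEquiv.piCongrLeft' Λ (fun i => (X i).T) (Fintype.equivFin ι))⟩⟩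

theorem exists_fam (G : FM k Λ) : ∃ m ≤ G.dim, ∃ Gs : Fin m → FM k Λ,
    (∀ j, (Gs j).dim ≤ G.dim) ∧ (∀ j, InAdd G (Gs j)) ∧
      ∀ Y : FM k Λ, InAdd G Y → ∃ a, Cls Gs Y a := by
  classical
  obtain ⟨m, Gs, hG, ⟨e⟩⟩ := ks_fin G
  have hs : G.dim = ∑ j, (Gs j).dim :=
    (e.restrictScalars k).finrank_eq.trans (Module.finrank_pi_fintype k)
  refine ⟨m, ?_, Gs, fun j => hs ▸ Finset.single_le_sum (f := fun j => (Gs j).dim)
    (fun _ _ => Nat.zero_le _) (Finset.mem_univ j), fun j => ⟨1,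
    LinearMap.pi fun _ => e.symm.toLinearMap ∘ₗ LinearMap.single Λ (fun j => (Gs j).T) j,
    LinearMap.proj j ∘ₗ e.toLinearMap ∘ₗ LinearMap.proj 0, LinearMap.ext fun x => by simp⟩, ?_⟩
  · rw [hs]
    simpa using Finset.card_nsmul_le_sum Finset.univ (fun j => (Gs j).dim) 1 fun j _ =>
      have := (hG j).1
      dim_pos (Gs j)
  rintro Y ⟨n, a, b, hab⟩
  obtain ⟨I, _, X, hX, ⟨d⟩⟩ := ks_dec Y
  have key : ∀ i, ∃ j, Nonempty ((X i).T ≃ₗ[Λ] (Gs j).T) := fun i => by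
    let α : ∀ q : Fin n × Fin m, (X i).T →ₗ[Λ] (Gs q.2).T := fun q =>
      LinearMap.proj q.2 ∘ₗ e.toLinearMap ∘ₗ LinearMap.proj q.1 ∘ₗ a ∘ₗ d.symm.toLinearMap ∘ₗ
        LinearMap.single Λ (fun i => (X i).T) i
    let β : ∀ q : Fin n × Fin m, (Gs q.2).T →ₗ[Λ] (X i).T := fun q =>
      LinearMap.proj i ∘ₗ d.toLinearMap ∘ₗ b ∘ₗ LinearMap.single Λ (fun _ : Fin n => G.T) q.1 ∘ₗ
        e.symm.toLinearMap ∘ₗ LinearMap.single Λ (fun j => (Gs j).T) q.2
    have h1 : ∑ q, (β q ∘ₗ α q : Module.End Λ (X i).T) = 1 := LinearMap.ext fun x => by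
      have h2 : ∀ y, b (a y) = y := fun y => LinearMap.congr_fun hab y
      rw [LinearMap.sum_apply, Fintype.sum_prod_type]
      simp only [α, β, LinearMap.comp_apply, ← map_sum]
      simp only [LinearMap.single_apply, LinearMap.proj_apply, Finset.univ_sum_single,
        LinearEquiv.coe_coe, LinearEquiv.symm_apply_apply, h2, LinearEquiv.apply_symm_apply,
        Pi.single_eq_same, Module.End.one_apply]
    obtain ⟨q, hq⟩ := ks_unit (hX i) (fun q => β q ∘ₗ α q) Finset.univ (h1 ▸ isUnit_one)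
    exact ⟨q.2, ks_iso (hX i) (hG q.2) (α q) (β q) hq⟩
  choose c hc using key
  exact cls_of_equiv (d.trans (LinearEquiv.piCongrRight fun i => (hc i).some))

theorem rej_reg [FiniteDimensional k Λ] (P : FM k Λ) [Module.Projective Λ P.T] {x : P.T}
    (hx : x ∈ rej (FM.reg k Λ) P) : x = 0 := by
  obtain ⟨n, i, p, h⟩ := inAdd_reg P
  have h1 : i x = 0 := funext fun j => mem_rej.1 hx (LinearMap.proj j ∘ₗ i)
  rw [← map_zero p, ← h1]
  exact (LinearMap.congr_fun h x).symm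

theorem red_cok' (T : FM k Λ) {P Q : FM k Λ} (f : P.T →ₗ[Λ] Q.T) (h : rej T Q ≤ LinearMap.range f) :
    Nonempty ((cok (redMap T f)).T ≃ₗ[Λ] (cok f).T) := by
  let q : (red T Q).T →ₗ[Λ] (cok f).T :=
    Submodule.liftQ _ (LinearMap.range f).mkQ (h.trans (Submodule.ker_mkQ _).ge)
  have hq : Surjective q := fun z => by
    obtain ⟨y, rfl⟩ := Submodule.Quotient.mk_surjective _ z
    exact ⟨Submodule.Quotient.mk y, rfl⟩
  refine ⟨(Submodule.quotEquivOfEq _ _ ?_).trans (q.quotKerEquivOfSurjective hq)⟩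
  ext x
  obtain ⟨y, rfl⟩ := Submodule.Quotient.mk_surjective _ x
  constructor
  · rintro ⟨z, hz⟩
    obtain ⟨w, rfl⟩ := Submodule.Quotient.mk_surjective _ z
    rw [LinearMap.mem_ker, ← hz]
    exact (Submodule.Quotient.mk_eq_zero _).2 ⟨w, rfl⟩
  · intro h
    obtain ⟨w, rfl⟩ := (Submodule.Quotient.mk_eq_zero (LinearMap.range f)).1 h
    exact ⟨Submodule.Quotient.mk w, rfl⟩

theorem exists_red [FiniteDimensional k Λ] (V : Pres k Λ) (h : Injective V.f ∨ Rigid V.f) :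
    ∃ T : FM k Λ, Injective (redMap T V.f) ∧ Nonempty ((cok (redMap T V.f)).T ≃ₗ[Λ] V.C.T) := by
  rcases h with h | h
  · refine ⟨FM.reg k Λ, (injective_iff_map_eq_zero _).2 fun x hx => ?_,
      red_cok' _ _ fun x hx => rej_reg _ hx ▸ zero_mem _⟩
    obtain ⟨y, rfl⟩ := Submodule.Quotient.mk_surjective _ x
    rw [h ((rej_reg _ ((Submodule.Quotient.mk_eq_zero _).1 hx)).trans (map_zero V.f).symm)]
    rfl
  · refine ⟨V.C, red_inj fun ψ => ?_, red_cok V⟩
    obtain ⟨g, rfl⟩ := Module.projective_lifting_property (LinearMap.range V.f).mkQ ψ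
      (Submodule.mkQ_surjective _)
    obtain ⟨a, b, rfl⟩ := h g
    refine ⟨(LinearMap.range V.f).mkQ ∘ₗ b, ?_⟩
    rw [LinearMap.comp_add, ← LinearMap.comp_assoc a, Pres.mkQ_comp, LinearMap.zero_comp, zero_add,
      LinearMap.comp_assoc]

theorem quad_bound (n : ℕ) : ∃ B : ℕ, ∀ (k : Type) [Field k] [Infinite k]
    (Λ : Type) [Ring Λ] [Algebra k Λ] [FiniteDimensional k Λ], finrank k Λ ≤ n → BD k Λ →
      ∀ V : Pres k Λ, Injective V.f ∨ Rigid V.f → V.C.dim ^ 2 ≤ B * hd V.C V.C := by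
  obtain ⟨B, hB⟩ := quad_unif (n + n * n)
  refine ⟨B, fun k _ _ Λ _ _ _ hn hBD V hV => ?_⟩
  obtain ⟨m, hm, G, hd0, hG, hG'⟩ := exists_fam (FM.reg k Λ)
  have hP : ∀ j, Module.Projective Λ (G j).T := fun j => by
    obtain ⟨n, i, p, hp⟩ := hG j
    exact Module.Projective.of_split i p hp
  obtain ⟨T, hf, ⟨E⟩⟩ := exists_red V hV
  let G' : Fin m → FM k Λ := fun j => red T (G j)
  let Z : FM k Λ := FM.pi fun _ : Empty => T
  have d2 : ∀ j, (G' j).dim ≤ n := fun j =>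
    (dim_le_of_surj (M := G j) (N := G' j) _ (Submodule.mkQ_surjective _)).trans ((hd0 j).trans hn)
  have d4 : ∀ j, finrank k (Phi Z (G' j)) ≤ n + n * n := fun j => by
    have a := finrank_phi_le Z (G' j)
    have b : Z.dim = 0 := finrank_zero_of_subsingleton
    have c := d2 j
    rw [b, zero_mul, mul_zero] at a
    omega
  obtain ⟨a, ha⟩ := hG' V.P1 (inAdd_reg _)
  obtain ⟨b, hb⟩ := hG' V.P0 (inAdd_reg _)
  replace ha := ha.red T
  replace hb := hb.red T
  have e1 : frmN (fun p q => hd (G' p) (G' q)) (a, b) (a, b) = _ :=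
    frm_eq (v := (a, b)) (w := (a, b)) ha hb ha hb
  have e2 := stab_ineq _ hf
  rw [hd_congr _ E, ← hd_congr_left E] at e2
  have e4 := dim_cok hf
  have e5 : (cok (redMap T V.f)).dim = V.C.dim := (E.restrictScalars k).finrank_eq
  have e6 := wt_dim (G := G') (G' := G') (v := (a, b)) ha hb
  have e7 := hB m (((hm.trans hn)).trans (Nat.le_add_right _ _)) (fun p q => hd (G' p) (G' q))
    (fun p => (G' p).dim) (Tst Z G' G')
    (fun p q => ((hd_le_mul (G' p) (G' q)).trans (Nat.mul_le_mul (d2 p) (d2 q))).trans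
      (Nat.le_add_left _ _))
    (fun p => (d2 p).trans (Nat.le_add_right _ _))
    (by
      rintro _ ⟨U, W, -, rfl⟩
      exact ⟨fun p => (Submodule.finrank_le _).trans (d4 p),
        fun p => (Submodule.finrank_le _).trans (d4 p)⟩)
    (qh_red hBD hP T Z) (a, b)
    (mon_of_good ha hb ⟨hf, fun g => ⟨0, LinearMap.ext fun x => by
      rw [Subsingleton.elim x 0, map_zero, map_zero]⟩⟩)
  have e8 : wt (fun p => ((G' p).dim : ℤ)) (fun p => (G' p).dim) (a, b) = V.C.dim := by omega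
  have e9 : frmN (fun p q => hd (G' p) (G' q)) (a, b) (a, b) ≤ hd V.C V.C := by omega
  rw [e8] at e7
  exact_mod_cast e7.trans (mul_le_mul_of_nonneg_left e9 (Int.natCast_nonneg B))

theorem ManyBricks.of_surj {A : Type} [Ring A] [Algebra k A] (π : Λ →ₐ[k] A) (hπ : Surjective π)
    (h : ManyBricks k A) : ManyBricks k Λ := by
  obtain ⟨n, h⟩ := h
  refine ⟨n, fun N => ?_⟩
  obtain ⟨f, h1, h2⟩ := h N
  exact ⟨fun i => (f i).comp π, fun i X hX => h1 i X (hπ.forall.2 hX),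
    fun i j hij ⟨P, hP, hP'⟩ => h2 i j hij ⟨P, hP, hπ.forall.2 hP'⟩⟩

theorem ManyBricks.of_op (h : ManyBricks k Λᵐᵒᵖ) : ManyBricks k Λ := by
  obtain ⟨n, h⟩ := h
  refine ⟨n, fun N => ?_⟩
  obtain ⟨f, h1, h2⟩ := h N
  let g : Fin N → Λ →ₐ[k] Matrix (Fin n) (Fin n) k := fun i =>
    (Matrix.transposeAlgEquiv (Fin n) k k).symm.toAlgHom.comp
      ((AlgHom.op (f i)).comp (AlgEquiv.opOp k Λ).toAlgHom)
  have hg : ∀ i a, g i a = (f i (MulOpposite.op a)).transpose := fun _ _ => rfl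
  have key : ∀ i j (X : Matrix (Fin n) (Fin n) k), (∀ a, X * g i a = g j a * X) →
      ∀ a, X.transpose * f j a = f i a * X.transpose := fun i j X hX a => by
    have := congrArg Matrix.transpose (hX a.unop)
    simpa only [hg, Matrix.transpose_mul, Matrix.transpose_transpose, MulOpposite.op_unop]
      using this.symm
  exact ⟨g, fun i X hX h0 => (Matrix.isUnit_transpose X).1
      (h1 i _ (key i i X hX) fun e => h0 (Matrix.transpose_eq_zero.1 e)),
    fun i j hij ⟨P, hP, hP'⟩ => h2 j i hij.symm ⟨_, (Matrix.isUnit_transpose P).2 hP, key i j P hP'⟩⟩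

theorem many_of_subquad (d : ℕ) : ∃ N : ℕ, ∀ (k : Type) [Field k] [IsAlgClosed k] (Λ : Type)
    [Ring Λ] [Algebra k Λ] [FiniteDimensional k Λ], finrank k Λ ≤ d →
      ∀ (A : Type) [Ring A] [Algebra k A],
      ((∃ π : Λ →ₐ[k] A, Surjective π) ∨ ∃ π : Λᵐᵒᵖ →ₐ[k] A, Surjective π) →
      ∀ (P Q : Type) [AddCommGroup P] [Module k P] [Module A P] [IsScalarTower k A P]
        [AddCommGroup Q] [Module k Q] [Module A Q] [IsScalarTower k A Q]
        [FiniteDimensional k P] [FiniteDimensional k Q]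
        [Module.Projective A P] [Module.Projective A Q] (f : P →ₗ[A] Q),
        Injective f ∨ Rigid f →
        N * finrank k ((Q ⧸ LinearMap.range f) →ₗ[A] (Q ⧸ LinearMap.range f)) <
          finrank k (Q ⧸ LinearMap.range f) ^ 2 → ManyBricks k Λ := by
  obtain ⟨B, hB⟩ := quad_bound d
  refine ⟨B, fun k _ _ Λ _ _ _ hd A _ _ hπ P Q _ _ _ _ _ _ _ _ _ _ _ _ f hf h => ?_⟩
  by_contra hc
  obtain ⟨_, h1, h2⟩ : ∃ _ : FiniteDimensional k A, finrank k A ≤ finrank k Λ ∧ ¬ ManyBricks k A := by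
    rcases hπ with ⟨π, hπ⟩ | ⟨π, hπ⟩
    · exact ⟨Module.Finite.of_surjective π.toLinearMap hπ,
        LinearMap.finrank_le_finrank_of_surjective (f := π.toLinearMap) hπ,
        fun h => hc (h.of_surj π hπ)⟩
    · exact ⟨Module.Finite.of_surjective π.toLinearMap hπ,
        LinearMap.finrank_le_finrank_of_surjective
          (f := π.toLinearMap ∘ₗ (MulOpposite.opLinearEquiv k).toLinearMap)
          (hπ.comp MulOpposite.op_surjective), fun h => hc (h.of_surj π hπ).of_op⟩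
  exact absurd (hB k A (h1.trans hd) (BD_of_not_many h2)
    { P1 := { T := P }, P0 := { T := Q }, f := f } hf) (not_le.2 h)

end Pool.Agent.Lib.MP_146384_al
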