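import Pool.Agent.Lib.MP_146384_al.T.Unif

set_option autoImplicit false

namespace Pool.Agent.Lib.MP_146384_al

theorem quad_core {σ : Type} [Fintype σ] (β : (σ → ℕ) →+ (σ → ℕ) →+ ℤ) (D : (σ → ℕ) →+ ℤ)
    (H : ∀ v, (0 < D v ∧ 0 < β v v) ∨ (D v = 0 ∧ ∀ w, β v w = 0 ∧ β w v = 0)) :
    ∃ N : ℕ, ∀ v, D v ^ 2 ≤ N * β v v := by
  classical
  let e : σ → σ → ℕ := fun g => Pi.single g 1
  have hexp : ∀ (F : (σ → ℕ) →+ ℤ) v, F v = ∑ g, (v g : ℤ) * F (e g) := fun F v => by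
    have hs : v = ∑ g, v g • e g := by
      funext j
      simp [e, Finset.sum_apply, Pi.single_apply]
    conv_lhs => rw [hs]
    rw [map_sum]
    exact Finset.sum_congr rfl fun g _ => by rw [map_nsmul, nsmul_eq_mul]
  have hD0 : ∀ v, 0 ≤ D v := fun v => (H v).elim (fun h => h.1.le) fun h => h.1.ge
  have hq0 : ∀ v, 0 ≤ β v v := fun v => (H v).elim (fun h => h.2.le) fun h => (h.2 v).1.ge
  let A : σ → σ → ℤ := fun g h =>
    β (e g) (e h) + β (e h) (e g) + if g = h then (if D (e g) = 0 then 1 else 0) else 0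
  have hQ : ∀ y : σ → ℕ, ∑ g, (y g : ℤ) * ∑ h, A g h * y h =
      2 * β y y + ∑ g, if D (e g) = 0 then (y g : ℤ) * y g else 0 := fun y => by
    have h1 : ∀ g, ∑ h, β (e g) (e h) * y h = β (e g) y := fun g => by
      rw [hexp (β (e g)) y]
      exact Finset.sum_congr rfl fun h _ => mul_comm _ _
    have h2 : ∀ g, ∑ h, β (e h) (e g) * y h = β y (e g) := fun g => by
      rw [show β y (e g) = β.flip (e g) y from rfl, hexp (β.flip (e g)) y]
      exact Finset.sum_congr rfl fun h _ => mul_comm _ _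
    have h3 : β y y = ∑ g, (y g : ℤ) * β (e g) y := hexp (β.flip y) y
    simp only [A, add_mul, mul_add, Finset.sum_add_distrib, h1, h2, ite_mul, zero_mul, one_mul,
      Finset.sum_ite_eq, Finset.mem_univ, if_true, mul_ite, mul_zero]
    rw [← h3, ← hexp (β y) y]
    ring
  obtain ⟨m, hm, hb⟩ := drozdlin_pos A (fun g h => by
    by_cases e' : g = h
    · rw [e']
    · simp only [A, if_neg e', if_neg (Ne.symm e'), add_comm]) fun y hy => by
      rw [hQ]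
      have h1 : ∀ g ∈ Finset.univ, 0 ≤ if D (e g) = 0 then (y g : ℤ) * y g else 0 :=
        fun g _ => by positivity
      rcases H y with h | h
      · linarith [Finset.sum_nonneg h1, h.2]
      · obtain ⟨g, hg⟩ := Function.ne_iff.1 hy
        have hg' : (0 : ℤ) < y g := by exact_mod_cast Nat.pos_of_ne_zero hg
        have h2 := (Finset.sum_eq_zero_iff_of_nonneg fun g _ =>
          mul_nonneg (Int.natCast_nonneg (y g)) (hD0 (e g))).1 ((hexp D y).symm.trans h.1) g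
          (Finset.mem_univ g)
        have h3 := Finset.single_le_sum h1 (Finset.mem_univ g)
        rw [if_pos ((mul_eq_zero.1 h2).resolve_left hg'.ne')] at h3
        linarith [hq0 y, mul_pos hg' hg']
  let M : ℤ := ∑ g, D (e g)
  have hM : (0 : ℝ) ≤ M := by exact_mod_cast Finset.sum_nonneg fun g _ => hD0 (e g)
  obtain ⟨N, hN⟩ := exists_nat_ge (2 * M ^ 2 / m)
  refine ⟨N, fun v => ?_⟩
  let y : σ → ℕ := fun g => if D (e g) = 0 then 0 else v g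
  have hrad : ∀ (F : (σ → ℕ) →+ ℤ), (∀ g, D (e g) = 0 → F (e g) = 0) → F v = F y := fun F hF => by
    rw [hexp F v, hexp F y]
    refine Finset.sum_congr rfl fun g _ => ?_
    by_cases hg : D (e g) = 0
    · simp [hF g hg]
    · simp [y, hg]
  have hr : ∀ g, D (e g) = 0 → ∀ w, β (e g) w = 0 ∧ β w (e g) = 0 := fun g hg =>
    ((H (e g)).resolve_left fun h => h.1.ne' hg).2
  have h1 : β v v = β y y :=
    (hrad (β v) fun g hg => (hr g hg v).2).trans (hrad (β.flip y) fun g hg => (hr g hg y).1)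
  have h2 : D v ≤ M * ∑ g, (y g : ℤ) := by
    rw [hrad D fun _ h => h, hexp D y, Finset.mul_sum]
    refine Finset.sum_le_sum fun g _ => ?_
    rw [mul_comm]
    exact mul_le_mul_of_nonneg_right (Finset.single_le_sum (f := fun g => D (e g))
      (fun g _ => hD0 _) (Finset.mem_univ g)) (Int.natCast_nonneg _)
  have h3 := hQ y
  rw [Finset.sum_eq_zero (f := fun g => if D (e g) = 0 then (y g : ℤ) * y g else 0)
    (fun g _ => by by_cases hg : D (e g) = 0 <;> simp [y, hg]), add_zero, ← h1] at h3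
  have h4 := hb (fun g => y g) fun g => Nat.cast_nonneg _
  have h5 : ∑ g, (y g : ℝ) * ∑ h, (A g h : ℝ) * y h = 2 * β v v := by exact_mod_cast h3
  have h6 : (D v : ℝ) ≤ M * ((∑ g, y g : ℕ) : ℝ) := by exact_mod_cast h2
  have h7 : (0 : ℝ) ≤ β v v := by exact_mod_cast hq0 v
  have h8 : (0 : ℝ) ≤ D v := by exact_mod_cast hD0 v
  rw [h5, ← Nat.cast_sum] at h4
  rw [div_le_iff₀ hm] at hN
  have h9 : (D v : ℝ) ^ 2 ≤ N * β v v := by
    refine (pow_le_pow_left₀ h8 h6 2).trans (le_of_mul_le_mul_left ?_ hm)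
    nlinarith [mul_le_mul_of_nonneg_left h4 (sq_nonneg (M : ℝ)), mul_le_mul_of_nonneg_right hN h7]
  exact_mod_cast h9

theorem quad_lin {ι : Type} [Fintype ι] (T : Set ((ι → ℕ) × (ι → ℕ))) (hT : T.Finite)
    (β : ((ι → ℕ) × (ι → ℕ)) →+ ((ι → ℕ) × (ι → ℕ)) →+ ℤ) (D : ((ι → ℕ) × (ι → ℕ)) →+ ℤ)
    (H : ∀ v : (ι → ℕ) × (ι → ℕ), (∀ t ∈ T, ∑ i, v.1 i * t.1 i ≤ ∑ i, v.2 i * t.2 i) →
      (0 < D v ∧ 0 < β v v) ∨ (D v = 0 ∧ ∀ w, β v w = 0 ∧ β w v = 0)) :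
    ∃ N : ℕ, ∀ v : (ι → ℕ) × (ι → ℕ), (∀ t ∈ T, ∑ i, v.1 i * t.1 i ≤ ∑ i, v.2 i * t.2 i) →
      D v ^ 2 ≤ N * β v v := by
  classical
  have := hT.fintype
  let P : AddSubmonoid (((ι → ℕ) × (ι → ℕ)) × (T → ℕ)) :=
    { carrier := {x | ∀ t : T, ∑ i, x.1.1 i * t.1.1 i + x.2 t = ∑ i, x.1.2 i * t.1.2 i}
      zero_mem' := fun t => by simp
      add_mem' := fun {a b} ha hb t => by
        have h1 := ha t
        have h2 := hb t
        simp only [Prod.fst_add, Prod.snd_add, Pi.add_apply, add_mul, Finset.sum_add_distrib]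
        omega }
  have hP : P.FG := AddSubmonoid.fg_of_subtractive fun a ha b hab t => by
    have h1 := ha t
    have h2 := hab t
    simp only [Prod.fst_add, Prod.snd_add, Pi.add_apply, add_mul, Finset.sum_add_distrib] at h2
    omega
  obtain ⟨S, hS⟩ := hP
  let φ : (S → ℕ) →+ (((ι → ℕ) × (ι → ℕ)) × (T → ℕ)) :=
    { toFun := fun n => ∑ g : S, n g • g.1
      map_zero' := by simp
      map_add' := fun a b => by simp only [Pi.add_apply, add_nsmul, Finset.sum_add_distrib] }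
  have hφ : ∀ n, φ n ∈ P := fun n => by
    rw [← hS]
    exact AddSubmonoid.sum_mem _ fun g _ =>
      AddSubmonoid.nsmul_mem _ (AddSubmonoid.subset_closure g.2) _
  let ψ : (S → ℕ) →+ ((ι → ℕ) × (ι → ℕ)) := (AddMonoidHom.fst _ _).comp φ
  obtain ⟨B, hB⟩ := quad_core ((β.comp ψ).flip.comp ψ).flip (D.comp ψ) fun n => by
    rcases H (ψ n) (fun t ht => Nat.le.intro (hφ n ⟨t, ht⟩)) with h | h
    · exact Or.inl h
    · exact Or.inr ⟨h.1, fun w => h.2 (ψ w)⟩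
  refine ⟨B, fun v hv => ?_⟩
  have hm : (v, fun t : T => ∑ i, v.2 i * t.1.2 i - ∑ i, v.1 i * t.1.1 i) ∈ P := fun t =>
    Nat.add_sub_cancel' (hv t.1 t.2)
  rw [← hS] at hm
  obtain ⟨n, hn⟩ := AddSubmonoid.mem_closure_finset'.1 hm
  have e : v = ψ n := congrArg Prod.fst hn
  rw [e]
  exact hB n

/-- The hypothesis of the quadratic bound, for numerical data. -/
def QH {ι : Type} [Fintype ι] (h : ι → ι → ℕ) (d : ι → ℕ) (T : Set ((ι → ℕ) × (ι → ℕ))) : Prop :=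
  ∀ v : (ι → ℕ) × (ι → ℕ), (∀ t ∈ T, ∑ i, v.1 i * t.1 i ≤ ∑ i, v.2 i * t.2 i) →
    (0 < wt (fun p => (d p : ℤ)) (fun p => d p) v ∧ 0 < frmN h v v) ∨
      (wt (fun p => (d p : ℤ)) (fun p => d p) v = 0 ∧ ∀ w, frmN h v w = 0 ∧ frmN h w v = 0)

/-- The quadratic bound with constant `B`. -/
def QC {ι : Type} [Fintype ι] (B : ℕ) (h : ι → ι → ℕ) (d : ι → ℕ)
    (T : Set ((ι → ℕ) × (ι → ℕ))) : Prop :=
  ∀ v : (ι → ℕ) × (ι → ℕ), (∀ t ∈ T, ∑ i, v.1 i * t.1 i ≤ ∑ i, v.2 i * t.2 i) →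
    wt (fun p => (d p : ℤ)) (fun p => d p) v ^ 2 ≤ B * frmN h v v

theorem QC.mono {ι : Type} [Fintype ι] {B B' : ℕ} {h : ι → ι → ℕ} {d : ι → ℕ}
    {T : Set ((ι → ℕ) × (ι → ℕ))} (H : QH h d T) (c : QC B h d T) (hB : B ≤ B') : QC B' h d T :=
  fun v hv => (c v hv).trans (mul_le_mul_of_nonneg_right (by exact_mod_cast hB)
    ((H v hv).elim (fun a => a.2.le) fun a => (a.2 v).1.ge))

theorem quad_unif1 (ι : Type) [Fintype ι] (N : ℕ) : ∃ B : ℕ,
    ∀ (h : ι → ι → ℕ) (d : ι → ℕ) (T : Set ((ι → ℕ) × (ι → ℕ))), (∀ p q, h p q ≤ N) →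
      (∀ p, d p ≤ N) → (∀ t ∈ T, (∀ p, t.1 p ≤ N) ∧ ∀ p, t.2 p ≤ N) → QH h d T → QC B h d T := by
  have key : ∀ δ : (ι → ι → ℕ) × (ι → ℕ) × Set ((ι → ℕ) × (ι → ℕ)), ∃ B : ℕ, δ.2.2.Finite →
      QH δ.1 δ.2.1 δ.2.2 → QC B δ.1 δ.2.1 δ.2.2 := fun δ => by
    by_contra hc
    push Not at hc
    obtain ⟨h1, h2, -⟩ := hc 0
    obtain ⟨B, hB⟩ := quad_lin δ.2.2 h1 _ _ h2
    exact (hc B).2.2 hB
  choose b hb using key
  have f1 : {d : ι → ℕ | ∀ p, d p ∈ Set.Iic N}.Finite := Set.Finite.pi' fun _ => Set.finite_Iic N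
  have f2 := (Set.Finite.pi' fun _ : ι => f1).prod (f1.prod (f1.prod f1).finite_subsets)
  obtain ⟨B, hB⟩ := (f2.image b).bddAbove
  exact ⟨B, fun h d T h1 h2 h3 h4 => (hb (h, d, T) ((f1.prod f1).subset h3) h4).mono h4
    (hB ⟨(h, d, T), ⟨h1, h2, h3⟩, rfl⟩)⟩

theorem quad_unif (N : ℕ) : ∃ B : ℕ, ∀ m ≤ N,
    ∀ (h : Fin m → Fin m → ℕ) (d : Fin m → ℕ) (T : Set ((Fin m → ℕ) × (Fin m → ℕ))),
      (∀ p q, h p q ≤ N) → (∀ p, d p ≤ N) → (∀ t ∈ T, (∀ p, t.1 p ≤ N) ∧ ∀ p, t.2 p ≤ N) →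
      QH h d T → QC B h d T := by
  choose b hb using fun m => quad_unif1 (Fin m) N
  obtain ⟨B, hB⟩ := ((Set.finite_Iic N).image b).bddAbove
  exact ⟨B, fun m hm h d T h1 h2 h3 h4 => (hb m h d T h1 h2 h3 h4).mono h4 (hB ⟨m, hm, rfl⟩)⟩

end Pool.Agent.Lib.MP_146384_al
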